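import Pool.Agent.Y318.Adm.Stm

/-!
# The explicit map onto the slit plane (task Y318-ADM SLIT)
-/

set_option autoImplicit false

open Metric Set Filter Topology
open Pool.Agent.Y318.Adm

namespace Pool.Agent.Y304.Adm

lemma nsq_lt {z : ℂ} (hz : ‖z‖ < 1) : z.re ^ 2 + z.im ^ 2 < 1 := by
  have h := Complex.sq_norm z
  rw [Complex.normSq_apply] at h
  nlinarith [norm_nonneg z]

lemma one_sub_ne {z : ℂ} (hz : ‖z‖ < 1) : 1 - z ≠ 0 := by
  intro h
  have h1 : z = 1 := (sub_eq_zero.1 h).symm
  rw [h1, norm_one] at hz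
  exact lt_irrefl _ hz

lemma re_pos {z : ℂ} (hz : ‖z‖ < 1) : 0 < ((1 + z) / (1 - z)).re := by
  have h2 : 0 < Complex.normSq (1 - z) := Complex.normSq_pos.2 (one_sub_ne hz)
  have h3 := nsq_lt hz
  have e : ((1 + z) / (1 - z)).re = (1 - (z.re ^ 2 + z.im ^ 2)) / Complex.normSq (1 - z) := by
    rw [Complex.div_re]
    simp only [Complex.add_re, Complex.one_re, Complex.sub_re, Complex.add_im, Complex.one_im,
      Complex.sub_im]
    rw [← add_div]
    congr 1
    ring
  rw [e]
  exact div_pos (by linarith) h2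

lemma slit_aux {w : ℂ} (hw : 0 < w.re) {x : ℝ} (hx : 0 ≤ x) : -w ^ 2 ≠ (x : ℂ) := by
  intro h
  have h1 := congrArg Complex.re h
  have h2 := congrArg Complex.im h
  rw [pow_two] at h1 h2
  simp only [Complex.neg_re, Complex.mul_re, Complex.ofReal_re, Complex.neg_im, Complex.mul_im,
    Complex.ofReal_im] at h1 h2
  have h3 : w.im = 0 := by
    have : w.re * w.im = 0 := by linarith
    rcases mul_eq_zero.1 this with h | h
    · exact absurd h hw.ne'
    · exact h
  rw [h3] at h1
  nlinarith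

/-- the map onto the slit plane -/
noncomputable def ph (z : ℂ) : ℂ := -((1 + z) / (1 - z)) ^ 2

/-- the automorphism exchanging `0` and `b` composed with a rotation -/
noncomputable def ps (b u z : ℂ) : ℂ := (b - u * z) / (1 - (starRingEnd ℂ) b * (u * z))

lemma ps_den {b v : ℂ} (hb : ‖b‖ < 1) (hv : ‖v‖ < 1) : 1 - (starRingEnd ℂ) b * v ≠ 0 := by
  apply one_sub_ne
  rw [norm_mul, Complex.norm_conj]
  nlinarith [norm_nonneg b, norm_nonneg v]

lemma ps_lt {b v : ℂ} (hb : ‖b‖ < 1) (hv : ‖v‖ < 1) :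
    ‖(b - v) / (1 - (starRingEnd ℂ) b * v)‖ < 1 := by
  have hd : 0 < ‖1 - (starRingEnd ℂ) b * v‖ := norm_pos_iff.2 (ps_den hb hv)
  rw [norm_div, div_lt_one hd]
  have h1 := nsq_lt hb
  have h2 := nsq_lt hv
  have e : ‖1 - (starRingEnd ℂ) b * v‖ ^ 2 - ‖b - v‖ ^ 2 =
      (1 - (b.re ^ 2 + b.im ^ 2)) * (1 - (v.re ^ 2 + v.im ^ 2)) := by
    rw [Complex.sq_norm, Complex.sq_norm, Complex.normSq_apply, Complex.normSq_apply]
    simp only [Complex.sub_re, Complex.one_re, Complex.mul_re, Complex.conj_re, Complex.conj_im,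
      Complex.sub_im, Complex.one_im, Complex.mul_im]
    ring
  have h3 : 0 < (1 - (b.re ^ 2 + b.im ^ 2)) * (1 - (v.re ^ 2 + v.im ^ 2)) :=
    mul_pos (by linarith) (by linarith)
  exact lt_of_pow_lt_pow_left₀ 2 hd.le (by linarith)

theorem slit : S_SLIT := by
  intro α hα1 hα
  have hs : -α ∈ Complex.slitPlane := by
    rw [Complex.mem_slitPlane_iff]
    by_cases h : α.im = 0
    · left
      have : α.re < 0 := by
        by_contra h'
        exact hα ⟨h, not_lt.1 h'⟩
      simpa using this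
    · right
      simpa using h
  have h0 : -α ≠ 0 := Complex.slitPlane_ne_zero hs
  set w : ℂ := Complex.exp (Complex.log (-α) / 2) with hw
  have hw2 : w ^ 2 = -α := by
    rw [hw, ← Complex.exp_nat_mul]
    rw [show ((2 : ℕ) : ℂ) * (Complex.log (-α) / 2) = Complex.log (-α) by push_cast; ring]
    exact Complex.exp_log h0
  have hwre : 0 < w.re := by
    rw [hw, Complex.exp_re]
    refine mul_pos (Real.exp_pos _) ?_
    have him : (Complex.log (-α) / 2).im = (-α).arg / 2 := by
      rw [show Complex.log (-α) / 2 = Complex.log (-α) / ((2 : ℝ) : ℂ) by push_cast; ring,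
        Complex.div_ofReal_im, Complex.log_im]
    rw [him]
    have h1 := Complex.neg_pi_lt_arg (-α)
    have h2 := lt_of_le_of_ne (Complex.arg_le_pi (-α)) (Complex.mem_slitPlane_iff_arg.1 hs).1
    exact Real.cos_pos_of_mem_Ioo ⟨by linarith, by linarith⟩
  have hw1 : w + 1 ≠ 0 := by
    intro h
    have := congrArg Complex.re h
    simp only [Complex.add_re, Complex.one_re, Complex.zero_re] at this
    linarith
  set b : ℂ := (w - 1) / (w + 1) with hb
  have hbn : ‖b‖ < 1 := by
    rw [hb, norm_div, div_lt_one (norm_pos_iff.2 hw1)]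
    refine lt_of_pow_lt_pow_left₀ 2 (norm_nonneg _) ?_
    rw [Complex.sq_norm, Complex.sq_norm, Complex.normSq_apply, Complex.normSq_apply]
    simp only [Complex.sub_re, Complex.one_re, Complex.sub_im, Complex.one_im, Complex.add_re,
      Complex.add_im]
    nlinarith
  have hb0 : b ≠ 0 := by
    intro h
    rw [hb, div_eq_zero_iff] at h
    rcases h with h | h
    · have : w = 1 := sub_eq_zero.1 h
      rw [this] at hw2
      apply hα1
      linear_combination hw2
    · exact hw1 h
  have hbw : (1 + b) / (1 - b) = w := by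
    rw [div_eq_iff (one_sub_ne hbn), hb]
    field_simp
    ring
  have hn0 : (‖b‖ : ℂ) ≠ 0 := by
    exact_mod_cast (norm_ne_zero_iff.2 hb0)
  set u : ℂ := b / (‖b‖ : ℂ) with hu
  have hun : ‖u‖ = 1 := by
    rw [hu, norm_div, Complex.norm_real, norm_norm, div_self (norm_ne_zero_iff.2 hb0)]
  have hut : u * (‖b‖ : ℂ) = b := by rw [hu]; field_simp
  have hlt : ∀ z : ℂ, ‖z‖ < 1 → ‖u * z‖ < 1 := fun z hz => by rw [norm_mul, hun, one_mul]; exact hz
  refine ⟨‖b‖, norm_pos_iff.2 hb0, hbn, fun z => ph (ps b u z), ⟨?_, ?_⟩, ?_, ?_⟩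
  · intro z hz
    have hz' : ‖z‖ < 1 := by simpa using hz
    have hd : (1 - (starRingEnd ℂ) b * (u * z)) ≠ 0 := ps_den hbn (hlt z hz')
    have hp : ‖ps b u z‖ < 1 := ps_lt hbn (hlt z hz')
    have h1 : DifferentiableAt ℂ (ps b u) z := by
      unfold ps
      exact DifferentiableAt.div (by fun_prop) (by fun_prop) hd
    have h2 : DifferentiableAt ℂ ph (ps b u z) := by
      unfold ph
      refine DifferentiableAt.neg (DifferentiableAt.pow ?_ 2)
      exact DifferentiableAt.div (by fun_prop) (by fun_prop) (one_sub_ne hp)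
    exact (h2.comp z h1).differentiableWithinAt
  · intro z hz
    have hz' : ‖z‖ < 1 := by simpa using hz
    have hp : ‖ps b u z‖ < 1 := ps_lt hbn (hlt z hz')
    have hr := re_pos hp
    refine ⟨?_, ?_⟩
    · have := slit_aux hr (le_refl (0 : ℝ))
      simpa [ph] using this
    · have := slit_aux hr (zero_le_one : (0 : ℝ) ≤ 1)
      simpa [ph] using this
  · show ph (ps b u 0) = α
    have : ps b u 0 = b := by simp [ps]
    rw [this, ph, hbw, hw2, neg_neg]
  · show ph (ps b u (‖b‖ : ℂ)) = -1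
    have : ps b u (‖b‖ : ℂ) = 0 := by rw [ps, hut, sub_self, zero_div]
    rw [this, ph]
    norm_num

end Pool.Agent.Y304.Adm
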