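import Pool.Agent.Y318.Adm.Stm

/-!
# Continuous functions on the circle are majorised by real parts of polynomials
(task Y318-ADM TRIG)
-/

set_option autoImplicit false

open Metric Set Filter Topology
open Pool.Agent.Y318.Adm

namespace Pool.Agent.Y304.Adm

local instance fact2pi : Fact (0 < 2 * Real.pi) := ⟨by positivity⟩

lemma four_nat (n : ℕ) (θ : ℝ) : (fourier (n : ℤ) (θ : AddCircle (2 * Real.pi)) : ℂ) =
    (Complex.exp ((θ : ℂ) * Complex.I)) ^ n := by
  rw [fourier_coe_apply, ← Complex.exp_nat_mul]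
  congr 1
  have : (Real.pi : ℂ) ≠ 0 := by exact_mod_cast Real.pi_ne_zero
  push_cast
  field_simp

lemma four_re (n : ℤ) (c : ℂ) : ∃ V : Polynomial ℂ, ∀ θ : ℝ,
    (c * fourier n (θ : AddCircle (2 * Real.pi))).re =
      (V.eval (Complex.exp ((θ : ℂ) * Complex.I))).re := by
  rcases Int.eq_nat_or_neg n with ⟨m, rfl | rfl⟩
  · refine ⟨Polynomial.C c * Polynomial.X ^ m, fun θ => ?_⟩
    rw [four_nat]
    simp
  · refine ⟨Polynomial.C ((starRingEnd ℂ) c) * Polynomial.X ^ m, fun θ => ?_⟩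
    rw [fourier_neg, four_nat, Polynomial.eval_mul, Polynomial.eval_C, Polynomial.eval_pow,
      Polynomial.eval_X, ← Complex.conj_re (c * _), map_mul, Complex.conj_conj]

lemma span_re {Q : C(AddCircle (2 * Real.pi), ℂ)}
    (hQ : Q ∈ Submodule.span ℂ (Set.range (@fourier (2 * Real.pi)))) :
    ∀ c : ℂ, ∃ V : Polynomial ℂ, ∀ θ : ℝ, (c * Q (θ : AddCircle (2 * Real.pi))).re =
      (V.eval (Complex.exp ((θ : ℂ) * Complex.I))).re := by
  induction hQ using Submodule.span_induction with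
  | mem x hx =>
    obtain ⟨n, rfl⟩ := hx
    exact fun c => four_re n c
  | zero => exact fun c => ⟨0, fun θ => by simp⟩
  | add x y hx hy ihx ihy =>
    intro c
    obtain ⟨V, hV⟩ := ihx c
    obtain ⟨W, hW⟩ := ihy c
    exact ⟨V + W, fun θ => by
      rw [ContinuousMap.add_apply, mul_add, Complex.add_re, hV, hW, Polynomial.eval_add,
        Complex.add_re]⟩
  | smul a x hx ih =>
    intro c
    obtain ⟨V, hV⟩ := ih (c * a)
    exact ⟨V, fun θ => by
      rw [ContinuousMap.smul_apply, smul_eq_mul, ← mul_assoc, hV]⟩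

lemma cont_eval (V : Polynomial ℂ) :
    Continuous fun θ : ℝ => V.eval (Complex.exp ((θ : ℂ) * Complex.I)) :=
  V.continuous.comp (by fun_prop)

lemma mean (V : Polynomial ℂ) : (V.eval 0).re = (2 * Real.pi)⁻¹ *
    ∫ θ in (0:ℝ)..(2 * Real.pi), (V.eval (Complex.exp ((θ : ℂ) * Complex.I))).re := by
  have h : Real.circleAverage (fun z => V.eval z) 0 1 = V.eval 0 :=
    DiffContOnCl.circleAverage (Differentiable.diffContOnCl (Polynomial.differentiable V))
  have h1 : (∫ θ in (0:ℝ)..(2 * Real.pi), (V.eval (Complex.exp ((θ : ℂ) * Complex.I))).re) =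
      (∫ θ in (0:ℝ)..(2 * Real.pi), V.eval (Complex.exp ((θ : ℂ) * Complex.I))).re :=
    Complex.reCLM.intervalIntegral_comp_comm ((cont_eval V).intervalIntegrable _ _)
  rw [h1, ← h, Real.circleAverage_def]
  simp only [circleMap, Complex.ofReal_one, one_mul, zero_add, Complex.smul_re, smul_eq_mul]

theorem trig : S_TRIG := by
  intro φ hφ hper
  have hP : Function.Periodic φ (2 * Real.pi) := hper
  let F : C(AddCircle (2 * Real.pi), ℂ) :=
    ⟨fun x => ((hP.lift x : ℝ) : ℂ) + 1 / 2, by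
      have h1 : Continuous (hP.lift : AddCircle (2 * Real.pi) → ℝ) :=
        hφ.quotient_liftOn' _
      have h2 : Continuous fun x : AddCircle (2 * Real.pi) => ((hP.lift x : ℝ) : ℂ) :=
        Complex.continuous_ofReal.comp h1
      exact h2.add continuous_const⟩
  have hF : ∀ θ : ℝ, F (θ : AddCircle (2 * Real.pi)) = (φ θ : ℂ) + 1 / 2 := fun θ => rfl
  have hd : F ∈ (Submodule.span ℂ (Set.range (@fourier (2 * Real.pi)))).topologicalClosure := by
    rw [span_fourier_closure_eq_top]; trivial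
  have hd' : F ∈ closure ((Submodule.span ℂ (Set.range (@fourier (2 * Real.pi))) :
      Submodule ℂ C(AddCircle (2 * Real.pi), ℂ)) : Set C(AddCircle (2 * Real.pi), ℂ)) := by
    rwa [← Submodule.topologicalClosure_coe]
  obtain ⟨Q, hQ, hFQ⟩ := Metric.mem_closure_iff.1 hd' (1 / 2) (by norm_num)
  obtain ⟨V, hV⟩ := span_re hQ 1
  have hV' : ∀ θ : ℝ, (Q (θ : AddCircle (2 * Real.pi))).re =
      (V.eval (Complex.exp ((θ : ℂ) * Complex.I))).re := fun θ => by rw [← hV θ, one_mul]
  have hb : ∀ θ : ℝ, |φ θ + 1 / 2 - (V.eval (Complex.exp ((θ : ℂ) * Complex.I))).re| < 1 / 2 := by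
    intro θ
    have h1 : dist (F (θ : AddCircle (2 * Real.pi))) (Q (θ : AddCircle (2 * Real.pi))) < 1 / 2 :=
      (ContinuousMap.dist_apply_le_dist _).trans_lt hFQ
    rw [dist_eq_norm, hF] at h1
    have h2 := (Complex.abs_re_le_norm _).trans_lt h1
    rw [← hV' θ]
    have e : ((φ θ : ℂ) + 1 / 2 - Q (θ : AddCircle (2 * Real.pi))).re =
        φ θ + 1 / 2 - (Q (θ : AddCircle (2 * Real.pi))).re := by
      rw [Complex.sub_re, Complex.add_re, Complex.ofReal_re]
      norm_num
    rwa [e] at h2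
  refine ⟨V, fun θ => ?_, ?_⟩
  · have := (abs_lt.1 (hb θ)).2
    linarith
  · rw [mean V]
    have hpi : (0 : ℝ) < 2 * Real.pi := by positivity
    have h1 : (∫ θ in (0:ℝ)..(2 * Real.pi), (V.eval (Complex.exp ((θ : ℂ) * Complex.I))).re) ≤
        ∫ θ in (0:ℝ)..(2 * Real.pi), (φ θ + 1) := by
      refine intervalIntegral.integral_mono_on hpi.le
        ((Complex.continuous_re.comp (cont_eval V)).intervalIntegrable _ _)
        ((hφ.add continuous_const).intervalIntegrable _ _) fun θ _ => ?_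
      have := (abs_lt.1 (hb θ)).1
      linarith
    rw [intervalIntegral.integral_add (hφ.intervalIntegrable _ _)
      (continuous_const.intervalIntegrable _ _), intervalIntegral.integral_const, sub_zero,
      smul_eq_mul, mul_one] at h1
    calc (2 * Real.pi)⁻¹ * (∫ θ in (0:ℝ)..(2 * Real.pi),
          (V.eval (Complex.exp ((θ : ℂ) * Complex.I))).re)
        ≤ (2 * Real.pi)⁻¹ * ((∫ θ in (0:ℝ)..(2 * Real.pi), φ θ) + 2 * Real.pi) :=
          mul_le_mul_of_nonneg_left h1 (by positivity)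
      _ = (2 * Real.pi)⁻¹ * (∫ θ in (0:ℝ)..(2 * Real.pi), φ θ) + 1 := by
          rw [mul_add, inv_mul_cancel₀ hpi.ne']

end Pool.Agent.Y304.Adm
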